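import Mathlib

namespace Pool.Agent.Results.MP_9405a7_co.FiveInvariant

open MvPolynomial

/-- A finite graph; loops and multiple edges are allowed. Its vertices are `0, …, n` and its edges
are `0, …, m-1`; the edge `e` is oriented from `src e` to `tgt e`. -/
structure MGraph where
  n : ℕ
  m : ℕ
  src : Fin m → Fin (n + 1)
  tgt : Fin m → Fin (n + 1)

/-- The vertex-edge incidence matrix with the row of the last vertex deleted. -/
def inc (G : MGraph) (v : Fin G.n) (e : Fin G.m) : ℤ :=
  (if G.src e = v.castSucc then 1 else 0) - (if G.tgt e = v.castSucc then 1 else 0)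

/-- The matrix `M_G` with the variables of the edges in `K` set to `0`. -/
noncomputable def MG (G : MGraph) (K : Finset (Fin G.m)) :
    Matrix (Fin G.m ⊕ Fin G.n) (Fin G.m ⊕ Fin G.n) (MvPolynomial (Fin G.m) ℤ) :=
  Matrix.fromBlocks (Matrix.diagonal fun e => if e ∈ K then 0 else X e)
    (Matrix.of fun e v => C (inc G v e)) (Matrix.of fun v e => - C (inc G v e)) 0

/-- The row (or column) indices of `M_G` outside `I`, in increasing order. -/
def idx (G : MGraph) (I : Finset (Fin G.m)) : List (Fin G.m ⊕ Fin G.n) :=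
  ((List.finRange G.m).filter (fun e => e ∉ I)).map Sum.inl ++ (List.finRange G.n).map Sum.inr

/-- Entry of a matrix at two optional indices (`0` if one of them is missing). -/
def ent {ι κ R : Type*} [Zero R] (M : ι → κ → R) (i : Option ι) (j : Option κ) : R :=
  match i, j with
  | some i, some j => M i j
  | _, _ => 0

/-- The Dodgson polynomial `Ψ^{I,J}_K`, for `|I| = |J|`: the determinant of `M_G` with the rows in
`I` and the columns in `J` removed and the variables of `K` set to `0`. -/
noncomputable def dodgson (G : MGraph) (I J K : Finset (Fin G.m)) : MvPolynomial (Fin G.m) ℤ :=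
  Matrix.det (Matrix.of fun a b : Fin (idx G I).length =>
    ent (fun i j => MG G K i j) (idx G I)[(a : ℕ)]? (idx G J)[(b : ℕ)]?)

/-- The five-invariant of the 5-configuration `e 0, …, e 4`. -/
noncomputable def five (G : MGraph) (e : Fin 5 → Fin G.m) : MvPolynomial (Fin G.m) ℤ :=
  dodgson G {e 0, e 1} {e 2, e 3} {e 4} * dodgson G {e 0, e 2, e 4} {e 1, e 3, e 4} ∅ -
    dodgson G {e 0, e 2} {e 1, e 3} {e 4} * dodgson G {e 0, e 1, e 4} {e 2, e 3, e 4} ∅

/-- The 5-configuration `{e 0, …, e 4}` splits: one of its 30 Dodgson polynomials vanishes. -/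
def Splits (G : MGraph) (e : Fin 5 → Fin G.m) : Prop :=
  ∃ s : Equiv.Perm (Fin 5),
    dodgson G {e (s 0), e (s 1)} {e (s 2), e (s 3)} {e (s 4)} = 0 ∨
    dodgson G {e (s 0), e (s 1), e (s 4)} {e (s 2), e (s 3), e (s 4)} ∅ = 0

/-- `P` is nonzero and each of its irreducible factors has degree at most 1 in every variable. -/
def LinearlyFactorable {σ : Type*} (P : MvPolynomial σ ℤ) : Prop :=
  P ≠ 0 ∧ ∀ f, Irreducible f → f ∣ P → ∀ i, degreeOf i f ≤ 1

/-! ### Determinants by expansion along lists of indices -/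

section dets

variable {ι κ : Type*} {R : Type*} [CommRing R]

/-- Expansion along the first row. -/
def detL (M : ι → κ → R) : List ι → List κ → R
  | [], _ => 1
  | r :: rs, cs => ∑ j ∈ Finset.range (rs.length + 1),
      (-1) ^ j * ent M (some r) cs[j]? * detL M rs (cs.eraseIdx j)

theorem det_list (M : ι → κ → R) : ∀ (rows : List ι) (cols : List κ),
    Matrix.det (Matrix.of fun a b : Fin rows.length =>
      ent M rows[(a : ℕ)]? cols[(b : ℕ)]?) = detL M rows cols
  | [], cols => by simp [detL]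
  | r :: rs, cols => by
    have h := Matrix.det_succ_row_zero (n := rs.length) (Matrix.of fun a b : Fin (rs.length + 1) =>
      ent M (r :: rs)[(a : ℕ)]? cols[(b : ℕ)]?)
    refine h.trans ?_
    rw [detL, Finset.sum_range]
    refine Finset.sum_congr rfl fun j _ => ?_
    rw [← det_list M rs (cols.eraseIdx j)]
    congr 1
    congr 1
    ext a b
    simp only [Matrix.submatrix_apply, Matrix.of_apply, Fin.val_succ, List.getElem?_cons_succ]
    congr 1
    rw [List.getElem?_eraseIdx]
    by_cases hb : b.castSucc < j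
    · rw [Fin.succAbove_of_castSucc_lt _ _ hb, if_pos (by simpa [Fin.lt_def] using hb)]
      simp
    · rw [Fin.succAbove_of_le_castSucc _ _ (not_lt.1 hb),
        if_neg (by simpa [Fin.lt_def] using hb)]
      simp

theorem detL_map {S : Type*} [CommRing S] (f : R →+* S) (M : ι → κ → R) :
    ∀ (rows : List ι) (cols : List κ),
      f (detL M rows cols) = detL (fun i j => f (M i j)) rows cols
  | [], cols => by simp [detL]
  | r :: rs, cols => by
    simp only [detL, map_sum, map_mul, map_pow, map_neg, map_one]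
    refine Finset.sum_congr rfl fun j _ => ?_
    rw [detL_map f M rs]
    congr 2
    cases cols[j]? <;> simp [ent]

end dets

/-! ### Kernel computation with integers -/

/-- Computable expansion over `ℤ`, skipping zero entries. -/
def detZ {ι κ : Type*} (M : ι → κ → ℤ) : List ι → List κ → ℤ
  | [], _ => 1
  | r :: rs, cs => (List.range (rs.length + 1)).foldr (fun j acc =>
      match cs[j]? with
      | some c => if M r c = 0 then acc else (-1) ^ j * M r c * detZ M rs (cs.eraseIdx j) + acc
      | none => acc) 0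

theorem sum_range_foldr {A : Type*} [AddCommMonoid A] (f : ℕ → A) (n : ℕ) :
    ∑ j ∈ Finset.range n, f j = (List.range n).foldr (fun j acc => f j + acc) 0 := by
  have h : ∀ l : List ℕ, l.foldr (fun j acc => f j + acc) 0 = (l.map f).sum := by
    intro l
    induction l with
    | nil => rfl
    | cons a l ih => simp [ih]
  rw [h]
  rfl

theorem detZ_eq {ι κ : Type*} (M : ι → κ → ℤ) : ∀ (rows : List ι) (cols : List κ),
    detZ M rows cols = detL M rows cols
  | [], cols => rfl
  | r :: rs, cols => by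
    rw [detZ, detL, sum_range_foldr]
    congr 1
    funext j acc
    rw [← detZ_eq M rs]
    rcases h : cols[j]? with _ | c
    · simp [ent]
    · simp only [ent]
      split_ifs with h0
      · rw [h0]; simp
      · rfl

/-! ### Kernel computation with polynomials -/

/-- Polynomials as lists of terms (sorted list of variables, coefficient). -/
abbrev Poly (m : ℕ) := List (List (Fin m) × ℤ)

section poly

variable {m : ℕ}

noncomputable def evT (t : List (Fin m) × ℤ) : MvPolynomial (Fin m) ℤ := C t.2 * (t.1.map X).prod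

noncomputable def ev (p : Poly m) : MvPolynomial (Fin m) ℤ := (p.map evT).sum

def addT (t : List (Fin m) × ℤ) : Poly m → Poly m
  | [] => [t]
  | s :: p => if s.1 = t.1 then (s.1, t.2 + s.2) :: p else s :: addT t p

theorem ev_addT (t : List (Fin m) × ℤ) : ∀ p : Poly m, ev (addT t p) = evT t + ev p
  | [] => rfl
  | s :: p => by
    rw [addT]
    split_ifs with h
    · simp only [ev, List.map_cons, List.sum_cons, evT, ← h, map_add]
      ring
    · have := ev_addT t p
      simp only [ev, List.map_cons, List.sum_cons] at this ⊢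
      rw [this]; ring

def addP (p q : Poly m) : Poly m := p.foldr addT q

theorem ev_addP (p q : Poly m) : ev (addP p q) = ev p + ev q := by
  induction p with
  | nil => simp [addP, ev]
  | cons t p ih =>
    have : addP (t :: p) q = addT t (addP p q) := rfl
    rw [this, ev_addT, ih]
    simp only [ev, List.map_cons, List.sum_cons]
    ring

/-- Value of a matrix entry `c` or `c * X v`. -/
noncomputable def evE (e : ℤ × Option (Fin m)) : MvPolynomial (Fin m) ℤ :=
  match e.2 with
  | none => C e.1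
  | some v => C e.1 * X v

def mulE (e : ℤ × Option (Fin m)) (p : Poly m) : Poly m :=
  match e.2 with
  | none => p.map fun t => (t.1, e.1 * t.2)
  | some v => p.map fun t => (t.1.orderedInsert (· ≤ ·) v, e.1 * t.2)

theorem ev_mulE (e : ℤ × Option (Fin m)) (p : Poly m) : ev (mulE e p) = evE e * ev p := by
  obtain ⟨c, v⟩ := e
  rcases v with _ | v
  · simp only [mulE, evE]
    induction p with
    | nil => simp [ev]
    | cons t p ih =>
      simp only [ev, List.map_cons, List.sum_cons, evT, map_mul] at ih ⊢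
      rw [ih]; ring
  · simp only [mulE, evE]
    induction p with
    | nil => simp [ev]
    | cons t p ih =>
      simp only [ev, List.map_cons, List.sum_cons, evT, map_mul] at ih ⊢
      rw [ih]
      have h : ((t.1.orderedInsert (· ≤ ·) v).map (X : Fin m → MvPolynomial (Fin m) ℤ)).prod =
          X v * (t.1.map X).prod := by
        have := (List.perm_orderedInsert (· ≤ ·) v t.1).map (X : Fin m → MvPolynomial (Fin m) ℤ)
        rw [this.prod_eq, List.map_cons, List.prod_cons]
      rw [h]; ring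

/-- Computable expansion with polynomial entries. -/
def detP {ι κ : Type*} (M : ι → κ → ℤ × Option (Fin m)) : List ι → List κ → Poly m
  | [], _ => [([], 1)]
  | r :: rs, cs => (List.range (rs.length + 1)).foldr (fun j acc =>
      match cs[j]? with
      | some c => if (M r c).1 = 0 then acc else
          addP (mulE ((-1) ^ j * (M r c).1, (M r c).2) (detP M rs (cs.eraseIdx j))) acc
      | none => acc) []

theorem ev_detP {ι κ : Type*} (M : ι → κ → ℤ × Option (Fin m)) :
    ∀ (rows : List ι) (cols : List κ),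
      ev (detP M rows cols) = detL (fun i j => evE (M i j)) rows cols
  | [], cols => by simp [detP, detL, ev, evT]
  | r :: rs, cols => by
    rw [detP, detL, sum_range_foldr]
    generalize List.range (rs.length + 1) = l
    induction l with
    | nil => simp [ev]
    | cons j l ih =>
      rw [List.foldr_cons, List.foldr_cons, ← ih]
      rcases h : cols[j]? with _ | c
      · simp [ent]
      · simp only [ent]
        split_ifs with h0
        · have : evE (M r c) = 0 := by
            unfold evE; cases (M r c).2 <;> simp [h0]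
          rw [this]; simp
        · rw [ev_addP, ev_mulE, ev_detP M rs]
          have : evE ((-1) ^ j * (M r c).1, (M r c).2) = (-1) ^ j * evE (M r c) := by
            unfold evE; cases (M r c).2 <;> simp [mul_assoc]
          rw [this]

end poly

/-! ### Computable Dodgson polynomials -/

/-- Entries of `M_G` in computable form. -/
def MGc (G : MGraph) (K : Finset (Fin G.m)) (i j : Fin G.m ⊕ Fin G.n) :
    ℤ × Option (Fin G.m) :=
  match i, j with
  | .inl a, .inl b => if a = b ∧ a ∉ K then (1, some a) else (0, none)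
  | .inl e, .inr v => (inc G v e, none)
  | .inr v, .inl e => (- inc G v e, none)
  | .inr _, .inr _ => (0, none)

theorem MGc_eq (G : MGraph) (K : Finset (Fin G.m)) (i j : Fin G.m ⊕ Fin G.n) :
    evE (MGc G K i j) = MG G K i j := by
  rcases i with i | i <;> rcases j with j | j
  · simp only [MGc, MG, Matrix.fromBlocks_apply₁₁, Matrix.diagonal_apply]
    by_cases h : i = j
    · subst h
      by_cases hK : i ∈ K <;> simp [hK, evE]
    · simp [h, evE]
  · simp [MGc, MG, evE]
  · simp [MGc, MG, evE]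
  · simp [MGc, MG, evE]

theorem dodgson_eq (G : MGraph) (I J K : Finset (Fin G.m)) :
    dodgson G I J K = ev (detP (MGc G K) (idx G I) (idx G J)) := by
  rw [dodgson, det_list, ev_detP]
  congr 1
  funext i j
  exact (MGc_eq G K i j).symm

/-- Entries of `M_G` evaluated at the point `x`. -/
def MGz (G : MGraph) (x : Fin G.m → ℤ) (K : Finset (Fin G.m)) (i j : Fin G.m ⊕ Fin G.n) : ℤ :=
  match i, j with
  | .inl a, .inl b => if a = b ∧ a ∉ K then x a else 0
  | .inl e, .inr v => inc G v e
  | .inr v, .inl e => - inc G v e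
  | .inr _, .inr _ => 0

theorem dodgson_ne (G : MGraph) (x : Fin G.m → ℤ) (I J K : Finset (Fin G.m))
    (h : detZ (MGz G x K) (idx G I) (idx G J) ≠ 0) : dodgson G I J K ≠ 0 := by
  intro e
  apply h
  rw [detZ_eq]
  have h2 := congrArg (eval x) e
  rw [dodgson, det_list, detL_map, map_zero] at h2
  rw [← h2]
  congr 1
  funext i j
  rcases i with i | i <;> rcases j with j | j
  · simp only [MGz, MG, Matrix.fromBlocks_apply₁₁, Matrix.diagonal_apply]
    by_cases h : i = j
    · subst h
      by_cases hK : i ∈ K <;> simp [hK]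
    · simp [h]
  · simp [MGz, MG]
  · simp [MGz, MG]
  · simp [MGz, MG]

/-! ### The two examples -/

/-- `K_{3,3}` with parts `{0,1,4}` and `{2,3,5}`; the first five edges `03, 45, 15, 12, 24` are a
4-cycle and an edge disjoint from it. -/
abbrev K33 : MGraph where
  n := 5
  m := 9
  src := ![0, 4, 1, 1, 2, 0, 3, 0, 1]
  tgt := ![3, 5, 5, 2, 4, 2, 4, 5, 3]

/-- `K_5`; the first five edges `01, 12, 23, 34, 40` are a 5-cycle. -/
abbrev K5 : MGraph where
  n := 4
  m := 10
  src := ![0, 1, 2, 3, 4, 0, 1, 2, 3, 4]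
  tgt := ![1, 2, 3, 4, 0, 2, 3, 4, 0, 1]

def e33 : Fin 5 → Fin K33.m := ![(0 : Fin 9), (1 : Fin 9), (2 : Fin 9), (3 : Fin 9), (4 : Fin 9)]
def e5 : Fin 5 → Fin K5.m := ![(0 : Fin 10), (1 : Fin 10), (2 : Fin 10), (3 : Fin 10), (4 : Fin 10)]

def x33 : Fin K33.m → ℤ := (![1, 1, 1, 1, 1, 2, 3, 5, 7] : Fin 9 → ℤ)
def x5 : Fin K5.m → ℤ := (![1, 1, 1, 1, 1, 2, 3, 5, 7, 11] : Fin 10 → ℤ)


/-- It suffices to look at permutations with `s 0 < s 1` and `s 2 < s 3`. -/
theorem nonsplit_of (G : MGraph) (e : Fin 5 → Fin G.m) (x : Fin G.m → ℤ)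
    (h : ∀ s : Equiv.Perm (Fin 5), s 0 < s 1 → s 2 < s 3 →
      detZ (MGz G x {e (s 4)}) (idx G {e (s 0), e (s 1)}) (idx G {e (s 2), e (s 3)}) ≠ 0 ∧
      detZ (MGz G x ∅) (idx G {e (s 0), e (s 1), e (s 4)})
        (idx G {e (s 2), e (s 3), e (s 4)}) ≠ 0) : ¬ Splits G e := by
  let P : Equiv.Perm (Fin 5) → Prop := fun s =>
    dodgson G {e (s 0), e (s 1)} {e (s 2), e (s 3)} {e (s 4)} = 0 ∨
    dodgson G {e (s 0), e (s 1), e (s 4)} {e (s 2), e (s 3), e (s 4)} ∅ = 0
  have base : ∀ s : Equiv.Perm (Fin 5), s 0 < s 1 → s 2 < s 3 → ¬ P s := by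
    rintro s h1 h2 (hs | hs)
    · exact dodgson_ne G x _ _ _ (h s h1 h2).1 hs
    · exact dodgson_ne G x _ _ _ (h s h1 h2).2 hs
  have sw01 : ∀ s : Equiv.Perm (Fin 5), P s → P (s * Equiv.swap 0 1 : Equiv.Perm (Fin 5)) := by
    intro s hs
    have e0 : (s * Equiv.swap 0 1 : Equiv.Perm (Fin 5)) 0 = s 1 := by simp
    have e1 : (s * Equiv.swap 0 1 : Equiv.Perm (Fin 5)) 1 = s 0 := by simp
    have e2 : (s * Equiv.swap 0 1 : Equiv.Perm (Fin 5)) 2 = s 2 := by
      rw [Equiv.Perm.mul_apply, Equiv.swap_apply_of_ne_of_ne (by decide) (by decide)]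
    have e3 : (s * Equiv.swap 0 1 : Equiv.Perm (Fin 5)) 3 = s 3 := by
      rw [Equiv.Perm.mul_apply, Equiv.swap_apply_of_ne_of_ne (by decide) (by decide)]
    have e4 : (s * Equiv.swap 0 1 : Equiv.Perm (Fin 5)) 4 = s 4 := by
      rw [Equiv.Perm.mul_apply, Equiv.swap_apply_of_ne_of_ne (by decide) (by decide)]
    show _ ∨ _
    rw [e0, e1, e2, e3, e4, Finset.pair_comm (e (s 1)) (e (s 0)),
      Finset.insert_comm (e (s 1)) (e (s 0))]
    exact hs
  have sw23 : ∀ s : Equiv.Perm (Fin 5), P s → P (s * Equiv.swap 2 3 : Equiv.Perm (Fin 5)) := by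
    intro s hs
    have e0 : (s * Equiv.swap 2 3 : Equiv.Perm (Fin 5)) 0 = s 0 := by
      rw [Equiv.Perm.mul_apply, Equiv.swap_apply_of_ne_of_ne (by decide) (by decide)]
    have e1 : (s * Equiv.swap 2 3 : Equiv.Perm (Fin 5)) 1 = s 1 := by
      rw [Equiv.Perm.mul_apply, Equiv.swap_apply_of_ne_of_ne (by decide) (by decide)]
    have e2 : (s * Equiv.swap 2 3 : Equiv.Perm (Fin 5)) 2 = s 3 := by simp
    have e3 : (s * Equiv.swap 2 3 : Equiv.Perm (Fin 5)) 3 = s 2 := by simp
    have e4 : (s * Equiv.swap 2 3 : Equiv.Perm (Fin 5)) 4 = s 4 := by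
      rw [Equiv.Perm.mul_apply, Equiv.swap_apply_of_ne_of_ne (by decide) (by decide)]
    show _ ∨ _
    rw [e0, e1, e2, e3, e4, Finset.pair_comm (e (s 3)) (e (s 2)),
      Finset.insert_comm (e (s 3)) (e (s 2))]
    exact hs
  have step1 : ∀ s : Equiv.Perm (Fin 5), s 2 < s 3 → ¬ P s := by
    intro s h2 hs
    rcases lt_trichotomy (s 0) (s 1) with h | h | h
    · exact base s h h2 hs
    · exact absurd (s.injective h) (by decide)
    · refine base _ ?_ ?_ (sw01 s hs)
      · simpa using h
      · rw [Equiv.Perm.mul_apply, Equiv.Perm.mul_apply,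
          Equiv.swap_apply_of_ne_of_ne (by decide) (by decide),
          Equiv.swap_apply_of_ne_of_ne (by decide) (by decide)]
        exact h2
  rintro ⟨s, hs⟩
  rcases lt_trichotomy (s 2) (s 3) with h | h | h
  · exact step1 s h hs
  · exact absurd (s.injective h) (by decide)
  · exact step1 _ (by simpa using h) (sw23 s hs)

theorem nonsplit33 : ¬ Splits K33 e33 := nonsplit_of K33 e33 x33 (by decide +kernel)

theorem nonsplit5 : ¬ Splits K5 e5 := nonsplit_of K5 e5 x5 (by decide +kernel)

/-! ### The five-invariants -/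

theorem five33 : five K33 e33 =
    (X (5 : Fin 9) * X 6 * X 7 - X 5 * X 6 * X 8 + X 5 * X 7 * X 8 - X 6 * X 7 * X 8 :
      MvPolynomial (Fin 9) ℤ) := by
  have hA : detP (MGc K33 {e33 4}) (idx K33 {e33 0, e33 1}) (idx K33 {e33 2, e33 3}) =
      ([([5, 6], 1), ([6, 7], 1)] : Poly 9) := by decide +kernel
  have hB : detP (MGc K33 ∅) (idx K33 {e33 0, e33 2, e33 4}) (idx K33 {e33 1, e33 3, e33 4}) =
      ([([8], -1), ([7], 1)] : Poly 9) := by decide +kernel
  have hC : detP (MGc K33 {e33 4}) (idx K33 {e33 0, e33 2}) (idx K33 {e33 1, e33 3}) =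
      ([([5, 8], -1), ([7, 8], 0), ([6, 7], 1)] : Poly 9) := by decide +kernel
  have hD : detP (MGc K33 ∅) (idx K33 {e33 0, e33 1, e33 4}) (idx K33 {e33 2, e33 3, e33 4}) =
      ([([7], 1)] : Poly 9) := by decide +kernel
  rw [five, dodgson_eq, dodgson_eq, dodgson_eq, dodgson_eq, hA, hB, hC, hD]
  simp only [ev, evT, List.map_cons, List.map_nil, List.sum_cons, List.sum_nil, List.prod_cons,
    List.prod_nil, map_one, map_neg, map_zero, mul_one, one_mul, zero_mul, add_zero]
  ring

theorem five5 : five K5 e5 =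
    (-(X (5 : Fin 10) * X 6 * X 7 * X 8 * X 9) *
      (X 5 * X 6 + X 6 * X 7 + X 7 * X 8 + X 8 * X 9 + X 9 * X 5) :
      MvPolynomial (Fin 10) ℤ) := by
  have hA : detP (MGc K5 {e5 4}) (idx K5 {e5 0, e5 1}) (idx K5 {e5 2, e5 3}) =
      ([([5, 7, 8, 9], -1)] : Poly 10) := by decide +kernel
  have hB : detP (MGc K5 ∅) (idx K5 {e5 0, e5 2, e5 4}) (idx K5 {e5 1, e5 3, e5 4}) =
      ([([6, 7, 8], 1), ([7, 8, 9], 0), ([5, 6, 7], 1), ([5, 7, 9], 0), ([6, 7, 9], 0),
        ([6, 8, 9], 1), ([5, 6, 9], 1)] : Poly 10) := by decide +kernel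
  have hC : detP (MGc K5 {e5 4}) (idx K5 {e5 0, e5 2}) (idx K5 {e5 1, e5 3}) =
      ([([5, 7, 8, 9], -1), ([5, 6, 8, 9], 1), ([6, 7, 8, 9], 1)] : Poly 10) := by
    decide +kernel
  have hD : detP (MGc K5 ∅) (idx K5 {e5 0, e5 1, e5 4}) (idx K5 {e5 2, e5 3, e5 4}) =
      ([([7, 8, 9], 0), ([5, 6, 7], 1), ([5, 7, 9], 0)] : Poly 10) := by decide +kernel
  rw [five, dodgson_eq, dodgson_eq, dodgson_eq, dodgson_eq, hA, hB, hC, hD]
  simp only [ev, evT, List.map_cons, List.map_nil, List.sum_cons, List.sum_nil, List.prod_cons,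
    List.prod_nil, map_one, map_neg, map_zero, mul_one, one_mul, zero_mul, add_zero]
  ring

/-- A polynomial of degree at most 1 in every variable is linearly factorable. -/
theorem lf_of_deg {σ : Type*} {P : MvPolynomial σ ℤ} (h0 : P ≠ 0) (h : ∀ i, degreeOf i P ≤ 1) :
    LinearlyFactorable P := by
  refine ⟨h0, fun f _ hf i => ?_⟩
  obtain ⟨q, rfl⟩ := hf
  have hf0 : f ≠ 0 := left_ne_zero_of_mul h0
  have hq0 : q ≠ 0 := right_ne_zero_of_mul h0
  have := h i
  rw [degreeOf_mul_eq hf0 hq0] at this
  omega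

theorem lf_mul {σ : Type*} {P Q : MvPolynomial σ ℤ} (hP : LinearlyFactorable P)
    (hQ : LinearlyFactorable Q) : LinearlyFactorable (P * Q) := by
  refine ⟨mul_ne_zero hP.1 hQ.1, fun f hf hd i => ?_⟩
  rcases hf.prime.dvd_or_dvd hd with h | h
  · exact hP.2 f hf h i
  · exact hQ.2 f hf h i

theorem lf_X {σ : Type*} (j : σ) : LinearlyFactorable (X j : MvPolynomial σ ℤ) := by
  classical
  refine lf_of_deg (X_ne_zero j) fun i => ?_
  rw [degreeOf_X]; split_ifs <;> norm_num

theorem lf_neg {σ : Type*} {P : MvPolynomial σ ℤ} (hP : LinearlyFactorable P) :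
    LinearlyFactorable (-P) :=
  ⟨neg_ne_zero.2 hP.1, fun f hf hd i => hP.2 f hf ((dvd_neg).1 hd) i⟩

theorem lf33 : LinearlyFactorable (five K33 e33) := by
  rw [five33]
  refine lf_of_deg ?_ ?_
  · intro h
    have := congrArg (eval (![0, 0, 0, 0, 0, 1, 1, 1, 0] : Fin 9 → ℤ)) h
    simp at this
  · intro i
    have hX : ∀ j : Fin 9, degreeOf i (X j : MvPolynomial (Fin 9) ℤ) = if i = j then 1 else 0 :=
      fun j => degreeOf_X i j
    have h3 : ∀ a b c : Fin 9, a ≠ b → a ≠ c → b ≠ c →
        degreeOf i (X a * X b * X c : MvPolynomial (Fin 9) ℤ) ≤ 1 := by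
      intro a b c hab hac hbc
      refine (degreeOf_mul_le _ _ _).trans ?_
      have := degreeOf_mul_le i (X a : MvPolynomial (Fin 9) ℤ) (X b)
      rw [hX, hX] at this
      rw [hX]
      split_ifs at this ⊢ <;> omega
    refine (degreeOf_sub_le _ _ _).trans (max_le ?_ (h3 _ _ _ (by decide) (by decide) (by decide)))
    refine (degreeOf_add_le _ _ _).trans (max_le ?_ (h3 _ _ _ (by decide) (by decide) (by decide)))
    refine (degreeOf_sub_le _ _ _).trans (max_le ?_ (h3 _ _ _ (by decide) (by decide) (by decide)))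
    exact h3 _ _ _ (by decide) (by decide) (by decide)

theorem lf5 : LinearlyFactorable (five K5 e5) := by
  rw [five5]
  refine lf_mul (lf_neg (lf_mul (lf_mul (lf_mul (lf_mul (lf_X _) (lf_X _)) (lf_X _)) (lf_X _))
    (lf_X _))) (lf_of_deg ?_ ?_)
  · intro h
    have := congrArg (eval (![0, 0, 0, 0, 0, 1, 1, 1, 1, 1] : Fin 10 → ℤ)) h
    simp at this
  · intro i
    have hX : ∀ j : Fin 10, degreeOf i (X j : MvPolynomial (Fin 10) ℤ) = if i = j then 1 else 0 :=
      fun j => degreeOf_X i j
    have h2 : ∀ a b : Fin 10, a ≠ b →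
        degreeOf i (X a * X b : MvPolynomial (Fin 10) ℤ) ≤ 1 := by
      intro a b hab
      refine (degreeOf_mul_le _ _ _).trans ?_
      rw [hX, hX]
      split_ifs <;> omega
    refine (degreeOf_add_le _ _ _).trans (max_le ?_ (h2 _ _ (by decide)))
    refine (degreeOf_add_le _ _ _).trans (max_le ?_ (h2 _ _ (by decide)))
    refine (degreeOf_add_le _ _ _).trans (max_le ?_ (h2 _ _ (by decide)))
    refine (degreeOf_add_le _ _ _).trans (max_le ?_ (h2 _ _ (by decide)))
    exact h2 _ _ (by decide)

/-- **Disproof of Q1.** In `K_{3,3}` (a 4-cycle and a disjoint edge) and in `K_5` (a 5-cycle) there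
are 5-configurations that do not split although their five-invariants are linearly
factorable. -/
theorem result :
    (Function.Injective e33 ∧ ¬ Splits K33 e33 ∧ LinearlyFactorable (five K33 e33) ∧
      five K33 e33 =
        (X (5 : Fin 9) * X 6 * X 7 - X 5 * X 6 * X 8 + X 5 * X 7 * X 8 - X 6 * X 7 * X 8 :
          MvPolynomial (Fin 9) ℤ)) ∧
    (Function.Injective e5 ∧ ¬ Splits K5 e5 ∧ LinearlyFactorable (five K5 e5) ∧
      five K5 e5 =
        (-(X (5 : Fin 10) * X 6 * X 7 * X 8 * X 9) *
          (X 5 * X 6 + X 6 * X 7 + X 7 * X 8 + X 8 * X 9 + X 9 * X 5) :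
          MvPolynomial (Fin 10) ℤ)) ∧
    ¬ ∀ (G : MGraph) (e : Fin 5 → Fin G.m), Function.Injective e →
      (LinearlyFactorable (five G e) ↔ Splits G e) := by
  have i33 : Function.Injective e33 := by
    have : Function.Injective (![0, 1, 2, 3, 4] : Fin 5 → Fin 9) := by decide
    exact this
  have i5 : Function.Injective e5 := by
    have : Function.Injective (![0, 1, 2, 3, 4] : Fin 5 → Fin 10) := by decide
    exact this
  exact ⟨⟨i33, nonsplit33, lf33, five33⟩, ⟨i5, nonsplit5, lf5, five5⟩,
    fun h => nonsplit33 ((h K33 e33 i33).1 lf33)⟩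

end Pool.Agent.Results.MP_9405a7_co.FiveInvariant
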